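import Pool.Agent.X125.Spec.FourC

/-! Negative answer to MP_90e10c Q1: a singular spectral pair whose only complete numbers
are `1` and `-1`. -/

set_option autoImplicit false
open MeasureTheory Filter Topology
open scoped ENNReal Real Pointwise

namespace Pool.Agent.Results.MP_90e10c_an.TwoCompleteNumbers

open Pool.Agent.X125.Spec Pool.Agent.X125.Spec.Four

/-- The exponential `e_l(x) = e^{-2π i l x}`. -/
noncomputable def e (l x : ℝ) : ℂ := Complex.exp (-(2 * π * Complex.I * ((l * x : ℝ) : ℂ)))

/-- `(μ, Λ)` is a spectral pair: `Λ` is countable, the exponentials `e_l`, `l ∈ Λ`, are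
orthonormal in `L²(μ)`, and every square integrable function orthogonal to all of them vanishes
almost everywhere. -/
def IsSpectralPair (μ : Measure ℝ) (Λ : Set ℝ) : Prop :=
  Λ.Countable ∧
  (∀ l ∈ Λ, ∀ l' ∈ Λ, ∫ x, e l x * (starRingEnd ℂ) (e l' x) ∂μ = if l = l' then 1 else 0) ∧
  (∀ f : ℝ → ℂ, MemLp f 2 μ → (∀ l ∈ Λ, ∫ x, f x * (starRingEnd ℂ) (e l x) ∂μ = 0) →
    f =ᵐ[μ] 0)

/-- A singular spectral pair in a strong sense: `μ` is a compactly supported Borel probability
measure, singular with respect to Lebesgue measure and without atoms. -/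
def IsSingularSpectralPair (μ : Measure ℝ) (Λ : Set ℝ) : Prop :=
  IsProbabilityMeasure μ ∧ (∃ K : Set ℝ, IsCompact K ∧ μ Kᶜ = 0) ∧ IsSpectralPair μ Λ ∧
    Measure.MutuallySingular μ volume ∧ ∀ x : ℝ, μ {x} = 0

/-- The complete numbers of the pair `(μ, Λ)`. -/
def completeNumbers (μ : Measure ℝ) (Λ : Set ℝ) : Set ℝ :=
  {t | IsSpectralPair μ ((fun l => t * l) '' Λ)}

theorem e_eq (l x : ℝ) : e l x = ex (-l) x := by
  unfold e ex
  congr 1
  push_cast
  ring

theorem conj_e (l x : ℝ) : (starRingEnd ℂ) (e l x) = ex l x := by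
  rw [e_eq, ← ex_neg, neg_neg]

theorem e_mul (l l' x : ℝ) : e l x * (starRingEnd ℂ) (e l' x) = ex (l' - l) x := by
  rw [conj_e, e_eq, ← ex_add]; congr 1; ring

theorem not_complete (Λ : Set ℝ) (n : ℝ) (h : ∀ l ∈ Λ, ehat mu (l - n) = 0) :
    ¬ IsSpectralPair mu Λ := by
  rintro ⟨_, _, hc⟩
  have h1 : (e n) =ᵐ[mu] 0 := by
    apply hc
    · have : e n = ex (-n) := by funext x; exact e_eq n x
      rw [this]
      exact ex_memLp mu _ 2
    · intro l hl
      simp only [e_mul]
      exact h l hl
  have h2 : ∀ᵐ x ∂mu, False := by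
    filter_upwards [h1] with x hx
    have h3 : ‖e n x‖ = 1 := by rw [e_eq, ex_norm]
    rw [hx] at h3
    simp at h3
  have h3 : mu = 0 := by
    rw [ae_iff] at h2
    simpa using h2
  have h4 : mu Set.univ = 1 := measure_univ
  rw [h3] at h4
  simp at h4

/-- The spectrum. -/
def Lam : Set ℝ := Set.range (fun i : Ind => (lam i : ℝ))

theorem ehat_eq_zero (i j : Ind) (h : (lam i : ℝ) ≠ lam j) : ehat mu ((lam i : ℝ) - lam j) = 0 :=
  orth i j (fun hh => h (by rw [hh]))

theorem pair_one : IsSpectralPair mu Lam := by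
  refine ⟨Set.countable_range _, ?_, ?_⟩
  · rintro _ ⟨i, rfl⟩ _ ⟨j, rfl⟩
    simp only [e_mul]
    split_ifs with h
    · rw [h, sub_self]; simp [ex_zero]
    · exact ehat_eq_zero j i (Ne.symm h)
  · intro f hf hfo
    have h1 : (fun x => (starRingEnd ℂ) (f x)) =ᵐ[mu] 0 := by
      apply complete
      · exact hf.star
      · intro i
        have h2 := hfo (lam i) ⟨i, rfl⟩
        have h3 : ∫ x, (starRingEnd ℂ) (f x * ex (lam i) x) ∂mu = 0 := by
          rw [integral_conj]
          simp only [conj_e] at h2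
          rw [h2]; simp
        rw [← h3]
        apply integral_congr_ae
        filter_upwards with x
        rw [map_mul, ex_neg]
    filter_upwards [h1] with x hx
    have : (starRingEnd ℂ) (f x) = 0 := hx
    simpa using this

theorem pair_neg_one : IsSpectralPair mu ((fun l => (-1 : ℝ) * l) '' Lam) := by
  refine ⟨(Set.countable_range _).image _, ?_, ?_⟩
  · rintro _ ⟨_, ⟨i, rfl⟩, rfl⟩ _ ⟨_, ⟨j, rfl⟩, rfl⟩
    simp only [e_mul]
    split_ifs with h
    · rw [h, sub_self]; simp [ex_zero]
    · have h2 : (lam i : ℝ) ≠ lam j := fun hh => h (by rw [hh])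
      have := ehat_eq_zero i j h2
      have e1 : -1 * (lam j : ℝ) - -1 * (lam i : ℝ) = (lam i : ℝ) - lam j := by ring
      rw [e1]
      exact this
  · intro f hf hfo
    apply complete f hf
    intro i
    have h2 := hfo (-1 * lam i) ⟨_, ⟨i, rfl⟩, rfl⟩
    simp only [conj_e] at h2
    rw [← h2]
    congr 1
    funext x
    congr 2
    ring

theorem complete_subset (t : ℝ) (ht : t ∈ completeNumbers mu Lam) : t = 1 ∨ t = -1 := by
  have hp : IsSpectralPair mu ((fun l => t * l) '' Lam) := ht
  have h0 : (0 : ℝ) ∈ Lam := ⟨Sum.inl (), by simp [lam]⟩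
  have h1 : (1 : ℝ) ∈ Lam := ⟨Sum.inr (Sum.inl 0), by simp [lam, g_zero]⟩
  by_cases ht0 : t = 0
  · exfalso
    refine not_complete _ 1 ?_ hp
    rintro _ ⟨l, _, rfl⟩
    have := ehat_Z4 (-1) (Z4_odd _ (by norm_num))
    rw [ht0]
    push_cast at this
    simpa using this
  · have h2 : ehat mu t = 0 := by
      have h3 := hp.2.1 (t * 0) ⟨0, h0, rfl⟩ (t * 1) ⟨1, h1, rfl⟩
      rw [if_neg (by simpa using Ne.symm ht0)] at h3
      simp only [e_mul] at h3
      have : t * 1 - t * 0 = t := by ring
      rw [this] at h3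
      exact h3
    obtain ⟨z, ⟨j, m, hz⟩, htz⟩ := zero_imp t h2
    rcases Nat.eq_zero_or_pos j with hj | hj
    · subst hj
      rw [pow_zero, one_mul] at hz
      by_cases h3 : 3 ≤ |z|
      · exfalso
        obtain ⟨s, hs⟩ := ts_surj z (by omega) h3
        refine not_complete _ (4 ^ (s + 1)) ?_ hp
        rintro _ ⟨_, ⟨i, rfl⟩, rfl⟩
        have := ehat_Z4 _ (obstruction s i)
        rw [hs] at this
        push_cast at this
        rw [htz]
        exact this
      · have : z = 1 ∨ z = -1 := by
          have h4 : |z| < 3 := not_le.1 h3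
          rw [abs_lt] at h4
          omega
        rcases this with h | h
        · left; rw [htz, h]; norm_num
        · right; rw [htz, h]; norm_num
    · exfalso
      refine not_complete _ 1 ?_ hp
      rintro _ ⟨_, ⟨i, rfl⟩, rfl⟩
      have h3 : Z4 (z * lam i - 1) := by
        apply Z4_odd
        obtain ⟨j', rfl⟩ : ∃ j', j = j' + 1 := ⟨j - 1, by omega⟩
        have := pow_succ_even j' ((2 * m + 1) * lam i)
        rw [hz, mul_assoc]
        omega
      have := ehat_Z4 _ h3
      push_cast at this
      rw [htz]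
      exact this

/-- The support of the measure. -/
noncomputable def TT : Set ℝ := Set.range (coding (D := Fin 2) 4 dg)

theorem coding_continuous : Continuous (coding (D := Fin 2) 4 dg) := by
  unfold coding
  apply continuous_tsum (u := fun j : ℕ => 2 / 4 ^ (j + 1))
  · intro j
    exact (continuous_of_discreteTopology.comp (continuous_apply j)).div_const _
  · exact (geom_hasSum (N := 4) (by norm_num) 2).summable
  · intro j ω
    rw [Real.norm_eq_abs, abs_div, abs_of_pos (show (0 : ℝ) < 4 ^ (j + 1) by positivity)]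
    apply div_le_div_of_nonneg_right _ (by positivity)
    have : ∀ a : Fin 2, |dg a| ≤ 2 := by
      intro a
      fin_cases a <;> simp [dg]
    exact this _

theorem TT_compact : IsCompact TT := isCompact_range coding_continuous

theorem TT_sub : TT ⊆ (fun x : ℝ => x / 4) '' TT ∪ (fun x : ℝ => (x + 2) / 4) '' TT := by
  rintro _ ⟨ω, rfl⟩
  have h : ω = cons (ω 0, fun n => ω (n + 1)) := by
    funext n
    cases n with
    | zero => rfl
    | succ n => rfl
  rw [h, coding_cons (by norm_num)]
  have h01 : ω 0 = 0 ∨ ω 0 = 1 := by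
    generalize ω 0 = a
    fin_cases a <;> simp
  rcases h01 with h0 | h0
  · left
    refine ⟨_, ⟨fun n => ω (n + 1), rfl⟩, ?_⟩
    rw [h0]
    simp [dg]
  · right
    refine ⟨_, ⟨fun n => ω (n + 1), rfl⟩, ?_⟩
    rw [h0]
    simp [dg]

theorem volume_TT : volume TT = 0 := by
  have h1 : volume ((fun x : ℝ => x / 4) '' TT) = volume TT / 4 := by
    have : (fun x : ℝ => x / 4) '' TT = (4 : ℝ)⁻¹ • TT := by
      ext x
      simp only [Set.mem_image, Set.mem_smul_set, smul_eq_mul]
      constructor
      · rintro ⟨y, hy, rfl⟩; exact ⟨y, hy, by ring⟩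
      · rintro ⟨y, hy, rfl⟩; exact ⟨y, hy, by ring⟩
    rw [this, Measure.addHaar_smul]
    simp only [Module.finrank_self, pow_one]
    rw [abs_of_pos (by norm_num : (0 : ℝ) < 4⁻¹), ENNReal.ofReal_inv_of_pos (by norm_num),
      mul_comm, ENNReal.div_eq_inv_mul, mul_comm]
    norm_num
  have h2 : volume ((fun x : ℝ => (x + 2) / 4) '' TT) = volume TT / 4 := by
    rw [← h1]
    have : (fun x : ℝ => (x + 2) / 4) '' TT = (fun x : ℝ => x + 1 / 2) '' ((fun x : ℝ => x / 4) '' TT) := by
      rw [Set.image_image]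
      apply Set.image_congr
      intro x _
      ring
    rw [this, Set.image_add_right, measure_preimage_add_right]
  have h3 : volume TT ≤ volume TT / 4 + volume TT / 4 := by
    calc volume TT ≤ volume ((fun x : ℝ => x / 4) '' TT ∪ (fun x : ℝ => (x + 2) / 4) '' TT) :=
          measure_mono TT_sub
      _ ≤ _ := measure_union_le _ _
      _ = _ := by rw [h1, h2]
  have hfin : volume TT ≠ ⊤ := TT_compact.measure_lt_top.ne
  by_contra hne
  have h4 := ENNReal.toReal_mono (by
    apply ENNReal.add_ne_top.2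
    constructor <;> exact ENNReal.div_ne_top hfin (by norm_num)) h3
  rw [ENNReal.toReal_add (ENNReal.div_ne_top hfin (by norm_num))
    (ENNReal.div_ne_top hfin (by norm_num)), ENNReal.toReal_div] at h4
  have h5 : 0 < (volume TT).toReal := ENNReal.toReal_pos hne hfin
  simp only [ENNReal.toReal_ofNat] at h4
  linarith

theorem mu_TT : mu TTᶜ = 0 := by
  unfold mu ssm
  rw [Measure.map_apply (measurable_coding (by norm_num) dg) TT_compact.measurableSet.compl]
  have : coding (D := Fin 2) 4 dg ⁻¹' TTᶜ = ∅ := by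
    rw [Set.eq_empty_iff_forall_notMem]
    intro ω hω
    exact hω ⟨ω, rfl⟩
  rw [this]
  exact measure_empty

theorem atom_formula (x : ℝ) : mu {x} = (2 : ℝ≥0∞)⁻¹ * (mu {4 * x} + mu {4 * x - 2}) := by
  have h := ssm_eq (N := 4) (by norm_num) dg
  rw [Fin.sum_univ_two] at h
  have hx := congrArg (fun m : Measure ℝ => m {x}) h
  simp only [Measure.smul_apply, Measure.add_apply, smul_eq_mul] at hx
  have h0 : (ssm 4 dg).map (fun y => (y + dg 0) / 4) {x} = mu {4 * x} := by
    rw [Measure.map_apply (by fun_prop) (measurableSet_singleton x)]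
    unfold mu
    congr 1
    ext y
    simp only [Set.mem_preimage, Set.mem_singleton_iff]
    have : dg 0 = 0 := rfl
    rw [this]
    constructor
    · intro h; linarith
    · intro h; rw [h]; ring
  have h1 : (ssm 4 dg).map (fun y => (y + dg 1) / 4) {x} = mu {4 * x - 2} := by
    rw [Measure.map_apply (by fun_prop) (measurableSet_singleton x)]
    unfold mu
    congr 1
    ext y
    simp only [Set.mem_preimage, Set.mem_singleton_iff]
    have : dg 1 = 2 := rfl
    rw [this]
    constructor
    · intro h; linarith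
    · intro h; rw [h]; ring
  rw [h0, h1] at hx
  simpa [mu] using hx

theorem atom_out (x : ℝ) (h : ¬ (0 ≤ x ∧ x ≤ 2 / 3)) : mu {x} = 0 := by
  have h1 := mu_supp
  rw [ae_iff] at h1
  apply measure_mono_null _ h1
  intro y hy
  rw [Set.mem_singleton_iff] at hy
  subst hy
  exact h

theorem noAtoms : ∀ x : ℝ, mu {x} = 0 := by
  set S : ℝ≥0∞ := ⨆ x : ℝ, mu {x} with hS
  have hle : ∀ x, mu {x} ≤ S := fun x => le_iSup (fun x => mu {x}) x
  have hhalf : ∀ x, mu {x} ≤ 2⁻¹ * S := by
    intro x
    rw [atom_formula x]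
    apply mul_le_mul_right
    by_cases h : 0 ≤ 4 * x ∧ 4 * x ≤ 2 / 3
    · have : mu {4 * x - 2} = 0 := by
        apply atom_out
        rintro ⟨h1, _⟩
        linarith [h.2]
      rw [this, add_zero]
      exact hle _
    · rw [atom_out _ h, zero_add]
      exact hle _
  have h1 : S ≤ 2⁻¹ * S := iSup_le hhalf
  have hS1 : S ≤ 1 := iSup_le fun x => prob_le_one
  have hfin : S ≠ ⊤ := ne_top_of_le_ne_top ENNReal.one_ne_top hS1
  have hS0 : S = 0 := by
    by_contra hne
    have h2 := ENNReal.toReal_mono (ENNReal.mul_ne_top (by simp) hfin) h1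
    rw [ENNReal.toReal_mul] at h2
    have h5 : 0 < S.toReal := ENNReal.toReal_pos hne hfin
    simp only [ENNReal.toReal_inv, ENNReal.toReal_ofNat] at h2
    linarith
  intro x
  have := hle x
  rw [hS0] at this
  exact le_antisymm this bot_le

/-- There is a singular spectral pair whose set of complete numbers is `{1, -1}`. In particular
not every singular spectral pair has infinitely many complete numbers. -/
theorem result : ∃ (μ : Measure ℝ) (Λ : Set ℝ), IsSingularSpectralPair μ Λ ∧
    completeNumbers μ Λ = {1, -1} := by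
  refine ⟨mu, Lam, ⟨inferInstance, ⟨TT, TT_compact, mu_TT⟩, pair_one, ?_, noAtoms⟩, ?_⟩
  · exact ⟨TTᶜ, TT_compact.measurableSet.compl, mu_TT, by rw [compl_compl]; exact volume_TT⟩
  · ext t
    simp only [Set.mem_insert_iff, Set.mem_singleton_iff]
    constructor
    · exact complete_subset t
    · rintro (h | h)
      · subst h
        change IsSpectralPair mu ((fun l => (1 : ℝ) * l) '' Lam)
        have : (fun l => (1 : ℝ) * l) '' Lam = Lam := by simp
        rw [this]
        exact pair_one
      · subst h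
        exact pair_neg_one

end Pool.Agent.Results.MP_90e10c_an.TwoCompleteNumbers
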